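import Mathlib

namespace Pool.Agent.Results.MP_3baeb2_co.MixingEqualsCircular

open Relation

/-- The colours `a, b` of the two ends of an edge in a `(k,q)`-colouring: `q ≤ |a - b| ≤ k - q`. -/
def Ok (k q a b : ℕ) : Prop := (q : ℤ) ≤ |(a : ℤ) - b| ∧ |(a : ℤ) - b| ≤ (k : ℤ) - q

/-- `f` is a `(k,q)`-colouring of `G`: a map to `{0,…,k-1}` with `q ≤ |f u - f v| ≤ k - q` on edges. -/
def IsCirc {V : Type} (G : SimpleGraph V) (k q : ℕ) (f : V → ℕ) : Prop :=
  (∀ v, f v < k) ∧ ∀ u v, G.Adj u v → Ok k q (f u) (f v)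

/-- One recolouring step: two `(k,q)`-colourings which differ at most at a single vertex. -/
def Rec {V : Type} (G : SimpleGraph V) (k q : ℕ) (f g : V → ℕ) : Prop :=
  IsCirc G k q f ∧ IsCirc G k q g ∧ ∃ v, ∀ u, u ≠ v → f u = g u

/-- `G` is `(k,q)`-mixing. -/
def Mix {V : Type} (G : SimpleGraph V) (k q : ℕ) : Prop :=
  ∀ f g, IsCirc G k q f → IsCirc G k q g → ReflTransGen (Rec G k q) f g

/-- The circular mixing threshold. -/
noncomputable def circMix {V : Type} (G : SimpleGraph V) : ℝ :=
  sInf {x : ℝ | ∃ l : ℚ, x = (l : ℝ) ∧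
    ∀ k q : ℕ, 0 < k → 0 < q → l ≤ (k : ℚ) / (q : ℚ) → Mix G k q}

/-- The circular chromatic number. -/
noncomputable def circChi {V : Type} (G : SimpleGraph V) : ℝ :=
  sInf {x : ℝ | ∃ k q : ℕ, 0 < k ∧ 0 < q ∧ (∃ f, IsCirc G k q f) ∧ x = (k : ℝ) / (q : ℝ)}

/-! ### general facts -/

lemma ok_symm {k q a b : ℕ} (h : Ok k q a b) : Ok k q b a := by
  unfold Ok at *
  rw [abs_sub_comm]; exact h

lemma ok_iff {k q a b : ℕ} (hb : b ≤ a) : Ok k q a b ↔ b + q ≤ a ∧ a + q ≤ k + b := by
  unfold Ok
  rw [abs_of_nonneg (by omega)]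
  omega

lemma rec_symm {V : Type} {G : SimpleGraph V} {k q : ℕ} {f g : V → ℕ} (h : Rec G k q f g) :
    Rec G k q g f := by
  obtain ⟨h1, h2, v, hv⟩ := h
  exact ⟨h2, h1, v, fun u hu => (hv u hu).symm⟩

lemma conn_symm {V : Type} {G : SimpleGraph V} {k q : ℕ} {f g : V → ℕ}
    (h : ReflTransGen (Rec G k q) f g) : ReflTransGen (Rec G k q) g f := by
  induction h with
  | refl => exact ReflTransGen.refl
  | tail _ h2 ih => exact ReflTransGen.head (rec_symm h2) ih

/-- Ordered simultaneous moves. -/
lemma ordered {V : Type} [Fintype V] [DecidableEq V] (G : SimpleGraph V) (k q : ℕ)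
    (f g : V → ℕ) (r : V → ℕ) (hf : ∀ v, f v < k) (hg : ∀ v, g v < k)
    (h : ∀ u v, G.Adj u v → Ok k q (f u) (f v) ∧ Ok k q (g u) (g v) ∧
      (r u ≤ r v → Ok k q (g u) (f v))) : ReflTransGen (Rec G k q) f g := by
  have hcirc : ∀ S : Finset V, (∀ u ∈ S, ∀ v, v ∉ S → r u ≤ r v) →
      IsCirc G k q (fun v => if v ∈ S then g v else f v) := by
    intro S hS
    refine ⟨fun v => ?_, fun u v huv => ?_⟩
    · dsimp only
      split_ifs
      · exact hg v
      · exact hf v
    · dsimp only
      by_cases hu : u ∈ S <;> by_cases hv : v ∈ S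
      · simp only [hu, hv, if_true]; exact (h u v huv).2.1
      · simp only [hu, hv, if_true, if_false]; exact (h u v huv).2.2 (hS u hu v hv)
      · simp only [hu, hv, if_true, if_false]
        exact ok_symm ((h v u huv.symm).2.2 (hS v hv u hu))
      · simp only [hu, hv, if_false]; exact (h u v huv).1
  have key : ∀ n, n ≤ Fintype.card V → ∃ S : Finset V, S.card = n ∧
      (∀ u ∈ S, ∀ v, v ∉ S → r u ≤ r v) ∧
      ReflTransGen (Rec G k q) f (fun v => if v ∈ S then g v else f v) := by
    intro n
    induction n with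
    | zero =>
      intro _
      refine ⟨∅, rfl, by simp, ?_⟩
      have : (fun v => if v ∈ (∅ : Finset V) then g v else f v) = f := by
        funext v; simp
      rw [this]
    | succ n ih =>
      intro hn
      obtain ⟨S, hc, hS, hR⟩ := ih (by omega)
      have hne : (Finset.univ \ S).Nonempty := by
        rw [← Finset.card_pos, Finset.card_sdiff_of_subset (Finset.subset_univ S),
          Finset.card_univ]
        omega
      obtain ⟨v, hv, hmin⟩ := Finset.exists_min_image (Finset.univ \ S) r hne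
      have hvS : v ∉ S := by simpa using hv
      have hS' : ∀ u ∈ insert v S, ∀ w, w ∉ insert v S → r u ≤ r w := by
        intro u hu w hw
        rw [Finset.mem_insert, not_or] at hw
        rw [Finset.mem_insert] at hu
        rcases hu with rfl | hu
        · exact hmin w (by simpa using hw.2)
        · exact hS u hu w hw.2
      refine ⟨insert v S, by rw [Finset.card_insert_of_notMem hvS, hc], hS', ?_⟩
      refine ReflTransGen.tail hR ⟨hcirc S hS, hcirc _ hS', v, fun u hu => ?_⟩
      simp [Finset.mem_insert, hu]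
  obtain ⟨S, hc, _, hR⟩ := key (Fintype.card V) le_rfl
  have hS : S = Finset.univ := by
    rwa [← Finset.card_eq_iff_eq_univ]
  rw [hS] at hR
  simpa using hR

/-- rotation by one -/
def rot (k : ℕ) {V : Type} (f : V → ℕ) : V → ℕ := fun v => (f v + 1) % k

lemma mod_succ {k a : ℕ} (ha : a < k) : (a + 1) % k = if a + 1 = k then 0 else a + 1 := by
  split_ifs with h
  · rw [h, Nat.mod_self]
  · exact Nat.mod_eq_of_lt (by omega)

lemma ok_rot {k q a b : ℕ} (ha : a < k) (hb : b < k) (h : Ok k q a b) :
    Ok k q ((a + 1) % k) ((b + 1) % k) := by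
  rw [mod_succ ha, mod_succ hb]
  unfold Ok at *
  rcases le_total a b with hab | hab
  · rw [abs_of_nonpos (by omega)] at h
    split_ifs
    · rw [abs_of_nonpos (by omega)]; omega
    · omega
    · rw [abs_of_nonneg (by push_cast; omega)]; push_cast; omega
    · rw [abs_of_nonpos (by push_cast; omega)]; push_cast; omega
  · rw [abs_of_nonneg (by omega)] at h
    split_ifs
    · rw [abs_of_nonpos (by omega)]; omega
    · rw [abs_of_nonpos (by push_cast; omega)]; push_cast; omega
    · omega
    · rw [abs_of_nonneg (by push_cast; omega)]; push_cast; omega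

lemma circ_rot {V : Type} {G : SimpleGraph V} {k q : ℕ} {f : V → ℕ} (hf : IsCirc G k q f) :
    IsCirc G k q (rot k f) := by
  refine ⟨fun v => Nat.mod_lt _ (by have := hf.1 v; omega), fun u v huv => ?_⟩
  exact ok_rot (hf.1 u) (hf.1 v) (hf.2 u v huv)

lemma conn_rot {V : Type} {G : SimpleGraph V} {k q : ℕ} {f g : V → ℕ}
    (h : ReflTransGen (Rec G k q) f g) : ReflTransGen (Rec G k q) (rot k f) (rot k g) := by
  refine ReflTransGen.lift (rot k) ?_ _ _ h
  rintro a b ⟨h1, h2, v, hv⟩
  refine ⟨circ_rot h1, circ_rot h2, v, fun u hu => ?_⟩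
  unfold rot
  rw [hv u hu]

lemma conn_rot_iter {V : Type} {G : SimpleGraph V} {k q : ℕ} {f g : V → ℕ} (y : ℕ)
    (h : ReflTransGen (Rec G k q) f g) :
    ReflTransGen (Rec G k q) ((rot k)^[y] f) ((rot k)^[y] g) := by
  induction y with
  | zero => exact h
  | succ y ih => rw [Function.iterate_succ_apply', Function.iterate_succ_apply']; exact conn_rot ih

lemma circ_rot_iter {V : Type} {G : SimpleGraph V} {k q : ℕ} {f : V → ℕ} (y : ℕ)
    (h : IsCirc G k q f) : IsCirc G k q ((rot k)^[y] f) := by
  induction y with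
  | zero => exact h
  | succ y ih => rw [Function.iterate_succ_apply']; exact circ_rot ih

lemma rot_iter_apply {V : Type} {k : ℕ} {f : V → ℕ} (hf : ∀ v, f v < k) (y : ℕ) (v : V) :
    (rot k)^[y] f v = (f v + y) % k := by
  induction y with
  | zero => simp [Nat.mod_eq_of_lt (hf v)]
  | succ y ih =>
    rw [Function.iterate_succ_apply']
    show ((rot k)^[y] f v + 1) % k = _
    rw [ih, Nat.mod_add_mod, add_assoc]

/-- multiples of `q` of a proper colouring -/
lemma circ_mul {V : Type} {G : SimpleGraph V} {k q j : ℕ} (hq : 0 < q) (hk : j * q ≤ k)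
    {c : V → ℕ} (hc : ∀ v, c v < j) (hp : ∀ u v, G.Adj u v → c u ≠ c v) :
    IsCirc G k q (fun v => q * c v) := by
  refine ⟨fun v => ?_, fun u v huv => ?_⟩
  · have := hc v
    calc q * c v < q * j := Nat.mul_lt_mul_of_pos_left (hc v) hq
      _ ≤ k := by rw [mul_comm]; exact hk
  · dsimp only
    have aux : ∀ a b, a < j → b < a → Ok k q (q * a) (q * b) := by
      intro a b ha hb
      rw [ok_iff (Nat.mul_le_mul_left q hb.le)]
      have h1 : q * (b + 1) ≤ q * a := Nat.mul_le_mul_left q hb
      have h2 : q * (a + 1) ≤ q * j := Nat.mul_le_mul_left q ha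
      have h3 : q * j ≤ k := by rw [mul_comm]; exact hk
      rw [mul_add, mul_one] at h1 h2
      exact ⟨h1, by omega⟩
    rcases lt_or_gt_of_ne (hp u v huv) with h | h
    · exact ok_symm (aux _ _ (hc v) h)
    · exact aux _ _ (hc u) h

/-- A linear colouring can be pushed to multiples of `q`. -/
lemma push {V : Type} [Fintype V] [DecidableEq V] {G : SimpleGraph V} {k q : ℕ} (hq : 0 < q)
    {f : V → ℕ} (hf : IsCirc G k q f) (hl : ∀ v, f v + q ≤ k) :
    ReflTransGen (Rec G k q) f (fun v => q * (f v / q)) := by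
  have hle : ∀ a, q * (a / q) ≤ a := fun a => Nat.mul_div_le a q
  have aux : ∀ a b, b ≤ a → a + q ≤ k → Ok k q a b → Ok k q (q * (a / q)) (q * (b / q)) ∧
      Ok k q (q * (b / q)) a := by
    intro a b hba ha h
    rw [ok_iff hba] at h
    have h1 : b / q + 1 ≤ a / q := by
      rw [← Nat.add_div_right b hq]
      exact Nat.div_le_div_right h.1
    have h2 := Nat.mul_le_mul_left q h1
    rw [mul_add, mul_one] at h2
    have h3 := hle a
    have h4 := hle b
    constructor
    · rw [ok_iff (by omega)]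
      omega
    · refine ok_symm ?_
      rw [ok_iff (by omega)]
      omega
  refine ordered G k q f _ f hf.1 (fun v => lt_of_le_of_lt (hle _) (hf.1 v)) ?_
  intro u v huv
  have h := hf.2 u v huv
  refine ⟨h, ?_, ?_⟩
  · rcases le_total (f u) (f v) with h1 | h1
    · exact ok_symm (aux _ _ h1 (hl v) (ok_symm h)).1
    · exact (aux _ _ h1 (hl u) h).1
  · intro h1
    exact (aux _ _ h1 (hl v) (ok_symm h)).2

lemma proper_div {V : Type} {G : SimpleGraph V} {k q : ℕ} (hq : 0 < q)
    {f : V → ℕ} (hf : IsCirc G k q f) (u v : V) (huv : G.Adj u v) : f u / q ≠ f v / q := by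
  have aux : ∀ a b, b ≤ a → Ok k q a b → a / q ≠ b / q := by
    intro a b hba h
    rw [ok_iff hba] at h
    have h1 : b / q + 1 ≤ a / q := by
      rw [← Nat.add_div_right b hq]
      exact Nat.div_le_div_right h.1
    omega
  rcases le_total (f u) (f v) with h1 | h1
  · exact (aux _ _ h1 (ok_symm (hf.2 u v huv))).symm
  · exact aux _ _ h1 (hf.2 u v huv)

/-! ### the graph -/

/-- adjacency of the theta graph with path lengths 2, 3, 3 (hubs 6 and 5, paths 6-0-5, 6-4-1-5,
6-2-3-5) -/
def hb (u v : Fin 7) : Bool :=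
  match u.1, v.1 with
  | 0, 6 => true
  | 6, 0 => true
  | 0, 5 => true
  | 5, 0 => true
  | 4, 6 => true
  | 6, 4 => true
  | 1, 4 => true
  | 4, 1 => true
  | 1, 5 => true
  | 5, 1 => true
  | 2, 6 => true
  | 6, 2 => true
  | 2, 3 => true
  | 3, 2 => true
  | 3, 5 => true
  | 5, 3 => true
  | _, _ => false

/-- the complement of the theta graph -/
def gb (u v : Fin 7) : Bool := !(decide (u = v)) && !(hb u v)

lemma gb_symm : ∀ u v : Fin 7, gb u v = gb v u := by decide

lemma gb_irrefl : ∀ u : Fin 7, gb u u = false := by decide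

/-- The graph: the complement of the theta graph with paths of lengths 2, 3, 3. -/
def G7 : SimpleGraph (Fin 7) where
  Adj u v := gb u v = true
  symm := ⟨fun u v h => by
    show gb v u = true
    rw [gb_symm]; exact h⟩
  loopless := by
    constructor
    intro u h
    rw [gb_irrefl] at h
    exact Bool.noConfusion h

/-- search for a Hamiltonian cycle through the given path: `true` if there is none -/
def noHam : ℕ → Fin 7 → Fin 7 → List (Fin 7) → Bool
  | 0, x0, last, _ => !(hb last x0)
  | n + 1, x0, last, used =>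
    (List.finRange 7).all fun x => !(hb last x && !(used.contains x)) || noHam n x0 x (x :: used)

lemma noHam_step {n : ℕ} {x0 last : Fin 7} {used : List (Fin 7)}
    (h : noHam (n + 1) x0 last used = true) (x : Fin 7) (hx : hb last x = true)
    (hu : x ∉ used) : noHam n x0 x (x :: used) = true := by
  unfold noHam at h
  rw [List.all_eq_true] at h
  have := h x (List.mem_finRange x)
  simpa [hx, hu] using this

lemma nonham : ∀ x : Fin 7, noHam 6 x x [x] = true := by
  decide +kernel

lemma hb_of_not_gb : ∀ u v : Fin 7, u ≠ v → gb u v = false → hb u v = true := by decide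

lemma exists_gap (s : Equiv.Perm (Fin 7)) : ∃ i : Fin 7, G7.Adj (s i) (s (i + 1)) := by
  by_contra hcon
  push Not at hcon
  have h : ∀ i : Fin 7, i ≠ i + 1 → hb (s i) (s (i + 1)) = true := by
    intro i hi
    refine hb_of_not_gb _ _ (fun h => hi (s.injective h)) ?_
    have := hcon i
    change ¬ (gb (s i) (s (i + 1)) = true) at this
    simpa using this
  have hne : ∀ i j : Fin 7, i ≠ j → s i ≠ s j := fun i j hij h => hij (s.injective h)
  have s1 := noHam_step (nonham (s 0)) (s 1) (h 0 (by decide))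
    (by simp [hne 1 0 (by decide)])
  have s2 := noHam_step s1 (s 2) (h 1 (by decide))
    (by simp [hne 2 0 (by decide), hne 2 1 (by decide)])
  have s3 := noHam_step s2 (s 3) (h 2 (by decide))
    (by simp [hne 3 0 (by decide), hne 3 1 (by decide), hne 3 2 (by decide)])
  have s4 := noHam_step s3 (s 4) (h 3 (by decide))
    (by simp [hne 4 0 (by decide), hne 4 1 (by decide), hne 4 2 (by decide),
      hne 4 3 (by decide)])
  have s5 := noHam_step s4 (s 5) (h 4 (by decide))
    (by simp [hne 5 0 (by decide), hne 5 1 (by decide), hne 5 2 (by decide),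
      hne 5 3 (by decide), hne 5 4 (by decide)])
  have s6 := noHam_step s5 (s 6) (h 5 (by decide))
    (by simp [hne 6 0 (by decide), hne 6 1 (by decide), hne 6 2 (by decide),
      hne 6 3 (by decide), hne 6 4 (by decide), hne 6 5 (by decide)])
  have h60 : hb (s 6) (s 0) = true := h 6 (by decide)
  unfold noHam at s6
  rw [h60] at s6
  exact Bool.noConfusion s6

lemma fin_lt_succ : ∀ i : Fin 7, i ≠ 6 → i < i + 1 := by decide

lemma fin_le_of : ∀ i m : Fin 7, i ≠ 6 → m < i + 1 → m ≤ i := by decide

/-- Every `(k,q)`-colouring can be rotated to a linear one. -/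
lemma exists_cut {k q : ℕ} (hq : 0 < q) {f : Fin 7 → ℕ} (hf : IsCirc G7 k q f) :
    ∃ y, ∀ v, (f v + y) % k + q ≤ k := by
  obtain ⟨i, hi⟩ := exists_gap (Tuple.sort f)
  have hmono : Monotone (f ∘ Tuple.sort f) := Tuple.monotone_sort f
  set s := Tuple.sort f with hs
  have hadj := hf.2 _ _ hi
  by_cases h6 : i = 6
  · subst h6
    have e : (6 : Fin 7) + 1 = 0 := by decide
    rw [e] at hadj
    refine ⟨k - f (s 0), fun v => ?_⟩
    have h0 : f (s 0) ≤ f v := by
      have := hmono (Fin.zero_le (s.symm v))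
      simpa using this
    have h1 : f v ≤ f (s 6) := by
      have := hmono (Fin.le_last (s.symm v))
      simpa using this
    have hk := hf.1 v
    have hk0 := hf.1 (s 0)
    rw [ok_iff (h0.trans h1)] at hadj
    have : f v + (k - f (s 0)) = (f v - f (s 0)) + k := by omega
    rw [this, Nat.add_mod_right, Nat.mod_eq_of_lt (by omega)]
    omega
  · have hlt : i < i + 1 := fin_lt_succ i h6
    have hle : f (s i) ≤ f (s (i + 1)) := hmono hlt.le
    have hadj' := ok_symm hadj
    rw [ok_iff hle] at hadj'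
    refine ⟨k - f (s (i + 1)), fun v => ?_⟩
    have hk := hf.1 v
    have hk1 := hf.1 (s (i + 1))
    rcases le_or_gt (i + 1) (s.symm v) with h | h
    · have h2 : f (s (i + 1)) ≤ f v := by
        have := hmono h
        simpa using this
      have : f v + (k - f (s (i + 1))) = (f v - f (s (i + 1))) + k := by omega
      rw [this, Nat.add_mod_right, Nat.mod_eq_of_lt (by omega)]
      omega
    · have h2 : s.symm v ≤ i := fin_le_of _ _ h6 h
      have h3 : f v ≤ f (s i) := by
        have := hmono h2
        simpa using this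
      rw [Nat.mod_eq_of_lt (by omega)]
      omega

/-! ### degenerate recolouring -/

/-- values below `j`, proper on the vertices below `i` -/
def Pp (j i : ℕ) (c : Fin 7 → ℕ) : Prop :=
  (∀ v, c v < j) ∧ ∀ u v : Fin 7, u.val < i → v.val < i → gb u v = true → c u ≠ c v

/-- a step at a vertex below `i` -/
def Rp (j i : ℕ) (c d : Fin 7 → ℕ) : Prop :=
  Pp j i c ∧ Pp j i d ∧ ∃ v : Fin 7, v.val < i ∧ ∀ u, u ≠ v → c u = d u

lemma back : ∀ w : Fin 7,
    (Finset.univ.filter (fun u : Fin 7 => u < w ∧ gb w u = true)).card ≤ 3 := by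
  decide

lemma free_colour {j : ℕ} (hj : 5 ≤ j) (w : Fin 7) (e : Fin 7 → ℕ) (a : ℕ) :
    ∃ b, b < j ∧ a ≠ b ∧ ∀ u : Fin 7, u < w → gb w u = true → e u ≠ b := by
  set F := insert a ((Finset.univ.filter (fun u : Fin 7 => u < w ∧ gb w u = true)).image e)
    with hF
  have hcard : F.card ≤ 4 := by
    refine (Finset.card_insert_le _ _).trans ?_
    have h1 := Finset.card_image_le
      (s := Finset.univ.filter (fun u : Fin 7 => u < w ∧ gb w u = true)) (f := e)
    have h2 := back w
    omega
  have hex : ∃ b ∈ Finset.range j, b ∉ F := by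
    by_contra hcon
    push Not at hcon
    have := Finset.card_le_card (show Finset.range j ⊆ F from fun b hb => hcon b hb)
    rw [Finset.card_range] at this
    omega
  obtain ⟨b, hbj, hbF⟩ := hex
  refine ⟨b, Finset.mem_range.1 hbj, ?_, ?_⟩
  · rintro rfl
    exact hbF (Finset.mem_insert_self _ _)
  · intro u hu hg heq
    refine hbF (Finset.mem_insert_of_mem ?_)
    rw [Finset.mem_image]
    exact ⟨u, by simp [hu, hg], heq⟩

lemma Pp_update {j i : ℕ} {w : Fin 7} (hw : w.val = i) {g : Fin 7 → ℕ} (hg : Pp j i g)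
    {b : ℕ} (hbj : b < j) (hn : ∀ u : Fin 7, u < w → gb w u = true → g u ≠ b) :
    Pp j (i + 1) (Function.update g w b) := by
  refine ⟨fun v => ?_, fun u v hu hv huv => ?_⟩
  · by_cases h : v = w
    · subst h; simpa using hbj
    · rw [Function.update_of_ne h]; exact hg.1 v
  · have hlt : ∀ x : Fin 7, x.val < i + 1 → x ≠ w → x.val < i := by
      intro x hx hxw
      have : x.val ≠ w.val := fun h => hxw (Fin.ext h)
      omega
    have hne : u ≠ v := by
      rintro rfl
      rw [gb_irrefl] at huv
      exact Bool.noConfusion huv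
    by_cases h1 : u = w
    · subst h1
      have h2 : v ≠ u := hne.symm
      rw [Function.update_self, Function.update_of_ne h2]
      refine (hn v ?_ huv).symm
      rw [Fin.lt_def, hw]; exact hlt v hv h2
    · by_cases h2 : v = w
      · subst h2
        rw [Function.update_self, Function.update_of_ne h1]
        refine hn u ?_ (by rw [gb_symm]; exact huv)
        rw [Fin.lt_def, hw]; exact hlt u hu h1
      · rw [Function.update_of_ne h1, Function.update_of_ne h2]
        exact hg.2 u v (hlt u hu h1) (hlt v hv h2) huv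

lemma conn_all {j : ℕ} (hj : 5 ≤ j) : ∀ i, i ≤ 7 → ∀ c d, Pp j i c → Pp j i d →
    (∀ v : Fin 7, i ≤ v.val → c v = d v) → ReflTransGen (Rp j i) c d := by
  intro i
  induction i with
  | zero =>
    intro _ c d _ _ h
    have : c = d := funext (fun v => h v (Nat.zero_le _))
    rw [this]
  | succ i ih =>
    intro hi c d hc hd hcd
    obtain ⟨w, hw⟩ : ∃ w : Fin 7, w.val = i := ⟨⟨i, by omega⟩, rfl⟩
    have mono : ∀ g, Pp j (i + 1) g → Pp j i g := fun g hg =>
      ⟨hg.1, fun u v hu hv huv => hg.2 u v (by omega) (by omega) huv⟩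
    have lift : ∀ e, ReflTransGen (Rp j i) c e → ∃ e', Pp j (i + 1) e' ∧
        (∀ u, u ≠ w → e' u = e u) ∧ ReflTransGen (Rp j (i + 1)) c e' := by
      intro e he
      induction he with
      | refl => exact ⟨c, hc, fun _ _ => rfl, ReflTransGen.refl⟩
      | @tail e f _ hst ihh =>
        obtain ⟨e', he', hee', hR⟩ := ihh
        obtain ⟨hPe, hPf, v, hv, hef⟩ := hst
        obtain ⟨b, hbj, hba, hbn⟩ := free_colour hj w e' (f v)
        have hvw : v ≠ w := by
          rintro rfl
          omega
        have h1 : Pp j (i + 1) (Function.update e' w b) := Pp_update hw (mono _ he') hbj hbn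
        have h2 : Pp j (i + 1) (Function.update f w b) := by
          refine Pp_update hw hPf hbj ?_
          intro u hu hg
          by_cases huv : u = v
          · subst huv; exact hba
          · rw [← hef u huv, ← hee' u (ne_of_lt hu)]; exact hbn u hu hg
        refine ⟨Function.update f w b, h2, fun u hu => Function.update_of_ne hu _ _, ?_⟩
        refine (hR.tail ⟨he', h1, w, by omega, fun u hu => ?_⟩).tail
          ⟨h1, h2, v, by omega, fun u hu => ?_⟩
        · rw [Function.update_of_ne hu]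
        · by_cases huw : u = w
          · subst huw; simp
          · rw [Function.update_of_ne huw, Function.update_of_ne huw, hee' u huw, hef u hu]
    have hd' : Pp j i (Function.update d w (c w)) := by
      refine ⟨fun v => ?_, fun u v hu hv huv => ?_⟩
      · by_cases h : v = w
        · subst h; simpa using hc.1 _
        · rw [Function.update_of_ne h]; exact hd.1 v
      · have h1 : u ≠ w := by rintro rfl; omega
        have h2 : v ≠ w := by rintro rfl; omega
        rw [Function.update_of_ne h1, Function.update_of_ne h2]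
        exact hd.2 u v (by omega) (by omega) huv
    have hpath := ih (by omega) c (Function.update d w (c w)) (mono _ hc) hd' (by
      intro v hv
      by_cases h : v = w
      · subst h; simp
      · rw [Function.update_of_ne h]
        have : v.val ≠ w.val := fun h' => h (Fin.ext h')
        exact hcd v (by omega))
    obtain ⟨e', he', hee', hR⟩ := lift _ hpath
    refine hR.tail ⟨he', hd, w, by omega, fun u hu => ?_⟩
    rw [hee' u hu, Function.update_of_ne hu]

lemma rec_of_Rp {j k q : ℕ} (hq : 0 < q) (hk : j * q ≤ k) {c d : Fin 7 → ℕ}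
    (h : Rp j 7 c d) : Rec G7 k q (fun v => q * c v) (fun v => q * d v) := by
  obtain ⟨h1, h2, v, _, hv⟩ := h
  refine ⟨circ_mul hq hk h1.1 (fun u v huv => h1.2 u v u.2 v.2 huv),
    circ_mul hq hk h2.1 (fun u v huv => h2.2 u v u.2 v.2 huv), v, fun u hu => ?_⟩
  dsimp only
  rw [hv u hu]

lemma conn_of_Rp {j k q : ℕ} (hq : 0 < q) (hk : j * q ≤ k) {c d : Fin 7 → ℕ}
    (h : ReflTransGen (Rp j 7) c d) :
    ReflTransGen (Rec G7 k q) (fun v => q * c v) (fun v => q * d v) := by
  induction h with
  | refl => exact ReflTransGen.refl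
  | tail _ h2 ih => exact ih.tail (rec_of_Rp hq hk h2)

/-! ### the finite check for four colours -/

/-- the `i`-th digit in base 4 -/
def dig (n i : ℕ) : ℕ := n / 4 ^ i % 4

/-- the colouring with a given code -/
def colOf (n : ℕ) : Fin 7 → ℕ := fun v => dig n v.val

/-- the code of a colouring -/
def code (c : Fin 7 → ℕ) : ℕ :=
  c 0 + 4 * c 1 + 16 * c 2 + 64 * c 3 + 256 * c 4 + 1024 * c 5 + 4096 * c 6

/-- the proper 4-colourings -/
def T : List ℕ :=
  [2484, 2548, 14772, 2550, 2552, 12724, 2502, 2294, 6648, 12708, 3526, 1270, 4600, 12711,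
    13220, 11718, 9462, 4856, 12707, 12583, 14244, 11526, 9458, 4857, 4824, 4515, 8487, 1956,
    11527, 11534, 9457, 9330, 4849, 4665, 7896, 7587, 11559, 1964, 11783, 7438, 9441, 9969,
    13426, 8945, 12857, 3800, 7331, 1965, 1900, 9735, 6414, 11489, 14450, 13881, 3672, 7329,
    7315, 1933, 1197, 10092, 13831, 6926, 7393, 14418, 13833, 3675, 3676, 7341, 6291, 2957,
    3245, 9068, 13835, 6925, 6942, 14419, 15186, 14089, 3659, 3163, 11868, 14483, 7053, 9052,
    13899, 6921, 4894, 14427, 13138, 15113, 1611, 2139, 8796, 9054, 8990, 9042, 7881, 7689,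
    3785, 7691, 7693, 1737, 7707, 7435, 11789, 1785, 4635, 6411, 9741, 1784, 1273, 12827,
    14603, 9997, 1780, 1656, 2297, 12891, 14599, 9998, 10029, 9972, 13944, 6393, 12888, 12883,
    14598, 14727, 9990, 10062, 9005, 8948, 12920, 6385, 13144, 8787, 14646, 15110, 2439,
    14086, 1870, 4909, 8692, 6386, 6321, 15192, 11859, 12598, 3463, 2894, 5037, 8694, 8676,
    6354, 6642, 14513, 2904, 11347, 8502, 3495, 2910, 5036, 5025, 8690, 11748, 7378, 4594,
    13489, 2908, 11346, 11363, 3492, 3239, 2142, 5020, 4524, 13217, 3556, 11474, 13473, 2972,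
    11358, 9315, 3500, 1191, 3166, 7068, 7596, 14241, 13475, 13411, 13479]

/-- a parent of each of them, and the vertex recoloured -/
def Par : List (ℕ × ℕ) :=
  [(0, 0), (0, 3), (0, 6), (1, 0), (1, 1), (2, 5), (3, 2), (3, 4), (4, 6), (5, 2), (6, 5),
    (7, 5), (8, 5), (9, 0), (9, 4), (10, 6), (11, 6), (12, 4), (13, 1), (13, 3), (14, 5), (15,
    3), (16, 1), (17, 0), (17, 2), (18, 6), (19, 6), (20, 6), (21, 0), (21, 1), (22, 0), (22,
    3), (23, 1), (23, 3), (24, 5), (25, 5), (26, 5), (27, 1), (28, 4), (29, 6), (30, 2), (30,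
    4), (31, 6), (32, 6), (33, 6), (34, 6), (35, 4), (37, 0), (37, 3), (38, 5), (39, 5), (40,
    5), (42, 5), (44, 5), (45, 3), (46, 0), (46, 2), (47, 2), (47, 4), (48, 6), (49, 6), (50,
    4), (51, 6), (52, 2), (53, 2), (54, 0), (54, 1), (55, 1), (56, 5), (57, 5), (58, 5), (59,
    5), (60, 1), (61, 0), (61, 2), (63, 0), (63, 4), (64, 4), (65, 2), (65, 4), (66, 6), (68,
    6), (69, 6), (71, 2), (72, 3), (73, 1), (74, 5), (75, 1), (76, 5), (77, 5), (78, 5), (79,
    5), (80, 5), (83, 0), (86, 6), (88, 6), (96, 0), (96, 3), (96, 6), (97, 0), (97, 1), (98,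
    5), (99, 2), (99, 4), (100, 6), (101, 2), (102, 5), (103, 5), (104, 5), (105, 0), (105,
    4), (106, 6), (107, 6), (108, 4), (109, 1), (109, 3), (110, 5), (111, 3), (112, 1), (113,
    0), (113, 2), (114, 6), (115, 6), (116, 6), (117, 0), (117, 1), (118, 0), (118, 3), (119,
    1), (119, 3), (120, 5), (121, 5), (122, 5), (123, 1), (124, 4), (125, 6), (126, 2), (126,
    4), (127, 6), (128, 6), (129, 6), (130, 6), (131, 4), (133, 0), (133, 3), (134, 5), (135,
    5), (136, 5), (138, 5), (140, 5), (141, 3), (142, 0), (142, 2), (143, 2), (143, 4), (144,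
    6), (145, 6), (146, 4), (147, 6), (148, 2), (149, 2), (150, 0), (150, 1), (151, 1), (152,
    5), (153, 5), (154, 5), (155, 5), (156, 1), (157, 0), (157, 2), (159, 0), (159, 4), (160,
    4), (161, 2), (161, 4), (162, 6), (164, 6), (165, 6), (167, 2), (168, 3), (169, 1), (170,
    5), (171, 1), (172, 5), (173, 5), (174, 5), (175, 5), (176, 5), (179, 0), (182, 6), (184,
    6)]

/-- the edges of the graph -/
def edges : List (Fin 7 × Fin 7) :=
  [(0, 1), (0, 2), (0, 3), (0, 4), (1, 2), (1, 3), (1, 6), (2, 4), (2, 5), (3, 4), (3, 6),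
    (4, 5), (5, 6)]

/-- is this the code of a proper colouring? -/
def valid (n : ℕ) : Bool := edges.all fun e => dig n e.1.val != dig n e.2.val

/-- compatibility of a new colour `a` -/
def compat (l : List ℕ) (a : ℕ) : Bool :=
  (List.range l.length).all fun i => !(gb (Fin.ofNat 7 i) (Fin.ofNat 7 l.length)) || l.getD i 0 != a

/-- all proper colourings with colours below `m` satisfy `P` -/
def allc (m : ℕ) (P : List ℕ → Bool) : ℕ → List ℕ → Bool
  | 0, l => P l
  | n + 1, l => (List.range m).all fun a => !(compat l a) || allc m P n (l ++ [a])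

lemma allc_step {m : ℕ} {P : List ℕ → Bool} {n : ℕ} {l : List ℕ}
    (h : allc m P (n + 1) l = true) {a : ℕ} (ha : a < m) (hc : compat l a = true) :
    allc m P n (l ++ [a]) = true := by
  unfold allc at h
  rw [List.all_eq_true] at h
  have := h a (List.mem_range.2 ha)
  simpa [hc] using this

lemma compat_of {c : Fin 7 → ℕ} (hp : ∀ u v, gb u v = true → c u ≠ c v) (w : Fin 7)
    {l : List ℕ} (hl : l.length = w.val) (hget : ∀ i : Fin 7, i < w → l.getD i.val 0 = c i) :
    compat l (c w) = true := by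
  unfold compat
  rw [List.all_eq_true]
  intro i hi
  rw [List.mem_range, hl] at hi
  have hi7 : i < 7 := hi.trans w.2
  have e1 : Fin.ofNat 7 i = ⟨i, hi7⟩ := Fin.ext (Nat.mod_eq_of_lt hi7)
  have e2 : Fin.ofNat 7 l.length = w := Fin.ext (by rw [hl]; exact Nat.mod_eq_of_lt w.2)
  rw [e1, e2]
  have h3 := hget ⟨i, hi7⟩ hi
  cases hg : gb ⟨i, hi7⟩ w with
  | false => rfl
  | true =>
    have := hp _ _ hg
    rw [← h3] at this
    simpa using this

lemma allc_use {m : ℕ} {P : List ℕ → Bool} (h : allc m P 7 [] = true) {c : Fin 7 → ℕ}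
    (hc : ∀ v, c v < m) (hp : ∀ u v, gb u v = true → c u ≠ c v) :
    P [c 0, c 1, c 2, c 3, c 4, c 5, c 6] = true := by
  have h1 := allc_step h (hc 0) (compat_of hp 0 rfl (by
    intro i hi; fin_cases i <;> (exfalso; revert hi; decide)))
  have h2 := allc_step h1 (hc 1) (compat_of hp 1 rfl (by
    intro i hi; fin_cases i <;> first | rfl | (exfalso; revert hi; decide)))
  have h3 := allc_step h2 (hc 2) (compat_of hp 2 rfl (by
    intro i hi; fin_cases i <;> first | rfl | (exfalso; revert hi; decide)))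
  have h4 := allc_step h3 (hc 3) (compat_of hp 3 rfl (by
    intro i hi; fin_cases i <;> first | rfl | (exfalso; revert hi; decide)))
  have h5 := allc_step h4 (hc 4) (compat_of hp 4 rfl (by
    intro i hi; fin_cases i <;> first | rfl | (exfalso; revert hi; decide)))
  have h6 := allc_step h5 (hc 5) (compat_of hp 5 rfl (by
    intro i hi; fin_cases i <;> first | rfl | (exfalso; revert hi; decide)))
  have h7 := allc_step h6 (hc 6) (compat_of hp 6 rfl (by
    intro i hi; fin_cases i <;> first | rfl | (exfalso; revert hi; decide)))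
  exact h7

lemma no_three : allc 3 (fun _ => false) 7 [] = true := by decide +kernel

lemma not_three {c : Fin 7 → ℕ} (hc : ∀ v, c v < 3) (hp : ∀ u v, gb u v = true → c u ≠ c v) :
    False := by
  have := allc_use no_three hc hp
  exact Bool.noConfusion this

/-- code of a list -/
def codeL (l : List ℕ) : ℕ :=
  l.getD 0 0 + 4 * l.getD 1 0 + 16 * l.getD 2 0 + 64 * l.getD 3 0 + 256 * l.getD 4 0 +
    1024 * l.getD 5 0 + 4096 * l.getD 6 0

lemma all_four : allc 4 (fun l => T.contains (codeL l)) 7 [] = true := by decide +kernel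

lemma T_valid : T.all valid = true := by decide +kernel

lemma T_len : T.length = 192 := by decide +kernel

lemma par_ok : ((List.range 192).all fun p => p == 0 || p == 96 ||
    (decide ((Par.getD p (0, 0)).1 < p) && (List.range 7).all fun u =>
      u == (Par.getD p (0, 0)).2 ||
        dig (T.getD (Par.getD p (0, 0)).1 0) u == dig (T.getD p 0) u)) = true := by
  decide +kernel

lemma T0_closed : ((T.take 96).all fun n => (List.range 7).all fun i => (List.range 4).all fun a =>
    !(valid (n + a * 4 ^ i - dig n i * 4 ^ i)) ||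
      (T.take 96).contains (n + a * 4 ^ i - dig n i * 4 ^ i)) = true := by
  decide +kernel

/-! ### assembling -/

lemma dig_code {c : Fin 7 → ℕ} (hc : ∀ v, c v < 4) (v : Fin 7) : dig (code c) v.val = c v := by
  have h0 := hc 0
  have h1 := hc 1
  have h2 := hc 2
  have h3 := hc 3
  have h4 := hc 4
  have h5 := hc 5
  have h6 := hc 6
  unfold dig code
  fin_cases v
  · show (c 0 + 4 * c 1 + 16 * c 2 + 64 * c 3 + 256 * c 4 + 1024 * c 5 + 4096 * c 6) / 4 ^ 0 % 4
      = c 0
    norm_num; omega
  · show (c 0 + 4 * c 1 + 16 * c 2 + 64 * c 3 + 256 * c 4 + 1024 * c 5 + 4096 * c 6) / 4 ^ 1 % 4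
      = c 1
    norm_num; omega
  · show (c 0 + 4 * c 1 + 16 * c 2 + 64 * c 3 + 256 * c 4 + 1024 * c 5 + 4096 * c 6) / 4 ^ 2 % 4
      = c 2
    norm_num; omega
  · show (c 0 + 4 * c 1 + 16 * c 2 + 64 * c 3 + 256 * c 4 + 1024 * c 5 + 4096 * c 6) / 4 ^ 3 % 4
      = c 3
    norm_num; omega
  · show (c 0 + 4 * c 1 + 16 * c 2 + 64 * c 3 + 256 * c 4 + 1024 * c 5 + 4096 * c 6) / 4 ^ 4 % 4
      = c 4
    norm_num; omega
  · show (c 0 + 4 * c 1 + 16 * c 2 + 64 * c 3 + 256 * c 4 + 1024 * c 5 + 4096 * c 6) / 4 ^ 5 % 4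
      = c 5
    norm_num; omega
  · show (c 0 + 4 * c 1 + 16 * c 2 + 64 * c 3 + 256 * c 4 + 1024 * c 5 + 4096 * c 6) / 4 ^ 6 % 4
      = c 6
    norm_num; omega

lemma colOf_code {c : Fin 7 → ℕ} (hc : ∀ v, c v < 4) : colOf (code c) = c :=
  funext (fun v => dig_code hc v)

lemma mem_edges : ∀ u v : Fin 7, gb u v = true → (u, v) ∈ edges ∨ (v, u) ∈ edges := by
  decide

lemma edges_gb : ∀ e ∈ edges, gb e.1 e.2 = true := by decide

lemma valid_code {c : Fin 7 → ℕ} (hc : ∀ v, c v < 4) (hp : ∀ u v, gb u v = true → c u ≠ c v) :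
    valid (code c) = true := by
  unfold valid
  rw [List.all_eq_true]
  intro e he
  rw [dig_code hc, dig_code hc]
  have := hp _ _ (edges_gb e he)
  simpa using this

lemma Pp_colOf {n : ℕ} (hn : valid n = true) : Pp 4 7 (colOf n) := by
  refine ⟨fun v => Nat.mod_lt _ (by norm_num), fun u v _ _ huv => ?_⟩
  unfold valid at hn
  rw [List.all_eq_true] at hn
  rcases mem_edges u v huv with h | h
  · have := hn _ h
    simpa [colOf] using this
  · have := hn _ h
    have h' : dig n v.val ≠ dig n u.val := by simpa using this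
    exact fun h'' => h' h''.symm

lemma T_getD_valid {p : ℕ} (hp : p < 192) : valid (T.getD p 0) = true := by
  have h := T_valid
  rw [List.all_eq_true] at h
  have hl : p < T.length := by rw [T_len]; exact hp
  rw [List.getD_eq_getElem _ _ hl]
  exact h _ (List.getElem_mem hl)

lemma table_conn : ∀ p, p < 192 →
    ReflTransGen (Rp 4 7) (colOf (T.getD 0 0)) (colOf (T.getD p 0)) ∨
      ReflTransGen (Rp 4 7) (colOf (T.getD 96 0)) (colOf (T.getD p 0)) := by
  intro p
  induction p using Nat.strong_induction_on with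
  | _ p ih =>
    intro hp
    have h := par_ok
    rw [List.all_eq_true] at h
    have h1 := h p (List.mem_range.2 hp)
    rw [Bool.or_eq_true, Bool.or_eq_true, Bool.and_eq_true] at h1
    rcases h1 with (h1 | h1) | ⟨h1, h2⟩
    · have : p = 0 := by simpa using h1
      subst this
      exact Or.inl ReflTransGen.refl
    · have : p = 96 := by simpa using h1
      subst this
      exact Or.inr ReflTransGen.refl
    · have hlt := of_decide_eq_true h1
      have hlt' : (Par.getD p (0, 0)).1 < 192 := hlt.trans hp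
      have hstep : Rp 4 7 (colOf (T.getD (Par.getD p (0, 0)).1 0)) (colOf (T.getD p 0)) := by
        refine ⟨Pp_colOf (T_getD_valid hlt'), Pp_colOf (T_getD_valid hp), ?_⟩
        rw [List.all_eq_true] at h2
        by_cases hv : (Par.getD p (0, 0)).2 < 7
        · refine ⟨⟨_, hv⟩, hv, fun u hu => ?_⟩
          have h3 := h2 u.val (List.mem_range.2 u.2)
          rw [Bool.or_eq_true] at h3
          rcases h3 with h3 | h3
          · exact absurd (Fin.ext (by simpa using h3)) hu
          · simpa [colOf] using h3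
        · refine ⟨0, by norm_num, fun u _ => ?_⟩
          have h3 := h2 u.val (List.mem_range.2 u.2)
          rw [Bool.or_eq_true] at h3
          rcases h3 with h3 | h3
          · exfalso
            have : u.val = (Par.getD p (0, 0)).2 := by simpa using h3
            omega
          · simpa [colOf] using h3
      rcases ih _ hlt hlt' with h4 | h4
      · exact Or.inl (h4.tail hstep)
      · exact Or.inr (h4.tail hstep)

/-- the base 4-colouring and its rotation -/
def c0 : Fin 7 → ℕ := colOf 2484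
def c1 : Fin 7 → ℕ := colOf 7881

lemma c1_eq : ∀ v, c1 v = (c0 v + 1) % 4 := by decide

lemma c0_Pp : Pp 4 7 c0 := Pp_colOf (by decide +kernel)

lemma mem_T {c : Fin 7 → ℕ} (hc : ∀ v, c v < 4) (hp : ∀ u v, gb u v = true → c u ≠ c v) :
    ∃ p, p < 192 ∧ colOf (T.getD p 0) = c := by
  have h := allc_use all_four hc hp
  have h2 : code c ∈ T := by
    have : T.contains (code c) = true := h
    simpa using this
  obtain ⟨p, hp', he⟩ := List.mem_iff_getElem.1 h2
  refine ⟨p, by rw [← T_len]; exact hp', ?_⟩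
  rw [List.getD_eq_getElem _ _ hp', he, colOf_code hc]

lemma four_conn {c : Fin 7 → ℕ} (hc : ∀ v, c v < 4) (hp : ∀ u v, gb u v = true → c u ≠ c v) :
    ReflTransGen (Rp 4 7) c0 c ∨ ReflTransGen (Rp 4 7) c1 c := by
  obtain ⟨p, hp', he⟩ := mem_T hc hp
  have h := table_conn p hp'
  rw [he] at h
  exact h

/-- With `k > 4q`, a 4-colouring times `q` is connected to its rotation. -/
lemma rot_four {k q : ℕ} (hq : 0 < q) (hk : 4 * q < k) {c : Fin 7 → ℕ} (hc : ∀ v, c v < 4)
    (hp : ∀ u v, G7.Adj u v → c u ≠ c v) :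
    ReflTransGen (Rec G7 k q) (fun v => q * c v) (rot k (fun v => q * c v)) := by
  have hle : ∀ v, q * c v ≤ q * 3 := fun v => Nat.mul_le_mul_left q (by have := hc v; omega)
  have hmod : ∀ v, (q * c v + 1) % k = q * c v + 1 := fun v =>
    Nat.mod_eq_of_lt (by have := hle v; omega)
  have hcirc := circ_mul hq hk.le hc hp
  refine ordered G7 k q _ _ (fun v => 3 - c v) hcirc.1 (circ_rot hcirc).1 ?_
  intro u v huv
  refine ⟨hcirc.2 u v huv, (circ_rot hcirc).2 u v huv, fun hr => ?_⟩
  have hlt : c v < c u := by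
    have := hc u
    have := hc v
    have := hp u v huv
    omega
  unfold rot
  dsimp only
  rw [hmod u]
  have h2 := Nat.mul_le_mul_left q (show c v + 1 ≤ c u from hlt)
  rw [mul_add, mul_one] at h2
  have h3 := hle u
  rw [ok_iff (by omega)]
  omega

lemma rot_four_iter {k q : ℕ} (hq : 0 < q) (hk : 4 * q < k) {c : Fin 7 → ℕ} (hc : ∀ v, c v < 4)
    (hp : ∀ u v, G7.Adj u v → c u ≠ c v) (y : ℕ) :
    ReflTransGen (Rec G7 k q) (fun v => q * c v) ((rot k)^[y] (fun v => q * c v)) := by
  induction y with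
  | zero => exact ReflTransGen.refl
  | succ y ih =>
    refine ih.trans ?_
    have := conn_rot_iter y (rot_four hq hk hc hp)
    rw [← Function.iterate_succ_apply] at this
    exact this

/-- cyclic shift of the four colours -/
lemma cyc_four {k q : ℕ} (hq : 0 < q) (hk : 4 * q < k) {c : Fin 7 → ℕ} (hc : ∀ v, c v < 4)
    (hp : ∀ u v, G7.Adj u v → c u ≠ c v) :
    ReflTransGen (Rec G7 k q) (fun v => q * c v) (fun v => q * ((c v + 1) % 4)) := by
  refine (rot_four_iter hq hk hc hp q).trans ?_
  have hcirc := circ_mul hq hk.le hc hp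
  have hcirc' : IsCirc G7 k q (fun v => q * ((c v + 1) % 4)) := by
    refine circ_mul hq hk.le (fun v => Nat.mod_lt _ (by norm_num)) ?_
    intro u v huv
    have := hc u
    have := hc v
    have := hp u v huv
    omega
  have hle : ∀ v, q * c v ≤ q * 3 := fun v => Nat.mul_le_mul_left q (by have := hc v; omega)
  have happ : ∀ v, (rot k)^[q] (fun v => q * c v) v = q * c v + q := by
    intro v
    rw [rot_iter_apply hcirc.1, Nat.mod_eq_of_lt]
    have := hle v
    omega
  have hI := circ_rot_iter q hcirc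
  refine ordered G7 k q _ _ (fun _ => 0) hI.1 hcirc'.1 ?_
  intro u v huv
  refine ⟨hI.2 u v huv, hcirc'.2 u v huv, fun _ => ?_⟩
  by_cases h3 : c u = 3
  · rw [happ v, h3]
    have hv : q * c v ≤ q * 2 := Nat.mul_le_mul_left q (by
      have := hc v
      have := hp u v huv
      omega)
    refine ok_symm ?_
    rw [ok_iff (by simp)]
    simp
    omega
  · have : (c u + 1) % 4 = c u + 1 := Nat.mod_eq_of_lt (by have := hc u; omega)
    rw [this, mul_add, mul_one, ← happ u]
    exact hI.2 u v huv

/-- Every colouring with `k > 4q` is connected to the base colouring. -/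
lemma main_conn {k q : ℕ} (hq : 0 < q) (hk : 4 * q < k) {f : Fin 7 → ℕ}
    (hf : IsCirc G7 k q f) : ReflTransGen (Rec G7 k q) f (fun v => q * c0 v) := by
  have hp0 : ∀ u v, G7.Adj u v → c0 u ≠ c0 v := fun u v huv => c0_Pp.2 u v u.2 v.2 huv
  have hlin : ∀ g, IsCirc G7 k q g → (∀ v, g v + q ≤ k) →
      ReflTransGen (Rec G7 k q) g (fun v => q * c0 v) := by
    intro g hg hgl
    refine (push hq hg hgl).trans ?_
    have hpr := proper_div hq hg
    have hlt : ∀ v, g v / q < k / q := by
      intro v
      have h1 : (g v + q) / q ≤ k / q := Nat.div_le_div_right (hgl v)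
      rw [Nat.add_div_right _ hq] at h1
      omega
    have hj4 : 4 ≤ k / q := by
      rw [Nat.le_div_iff_mul_le hq]
      exact hk.le
    rcases Nat.lt_or_ge 4 (k / q) with hj | hj
    · refine conn_of_Rp hq (Nat.div_mul_le_self k q) (conn_all (j := k / q) hj 7 le_rfl _ _ ?_ ?_ ?_)
      · exact ⟨hlt, fun u v _ _ huv => hpr u v huv⟩
      · exact ⟨fun v => lt_of_lt_of_le (c0_Pp.1 v) hj4, c0_Pp.2⟩
      · intro v hv
        have := v.2
        omega
    · have hlt4 : ∀ v, g v / q < 4 := fun v => lt_of_lt_of_le (hlt v) hj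
      rcases four_conn hlt4 (fun u v huv => hpr u v huv) with h | h
      · exact conn_symm (conn_of_Rp hq hk.le h)
      · refine (conn_symm (conn_of_Rp hq hk.le h)).trans (conn_symm ?_)
        have := cyc_four hq hk c0_Pp.1 hp0
        have e : (fun v => q * c1 v) = (fun v => q * ((c0 v + 1) % 4)) := by
          funext v
          rw [c1_eq]
        rw [e]
        exact this
  obtain ⟨y, hy⟩ := exists_cut hq hf
  have h1 := hlin _ (circ_rot_iter y hf) (fun v => by rw [rot_iter_apply hf.1]; exact hy v)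
  have h2 := conn_rot_iter ((k - 1) * y) h1
  rw [← Function.iterate_add_apply] at h2
  have e : (rot k)^[(k - 1) * y + y] f = f := by
    funext v
    rw [rot_iter_apply hf.1]
    have : (k - 1) * y + y = k * y := by
      obtain ⟨m, rfl⟩ : ∃ m, k = m + 1 := ⟨k - 1, by omega⟩
      simp
      ring
    rw [this, Nat.add_mul_mod_self_left, Nat.mod_eq_of_lt (hf.1 v)]
  rw [e] at h2
  exact h2.trans (conn_symm (rot_four_iter hq hk c0_Pp.1 hp0 _))

lemma mix_of_lt {k q : ℕ} (hq : 0 < q) (hk : 4 * q < k) : Mix G7 k q := fun _ _ hf hg =>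
  (main_conn hq hk hf).trans (conn_symm (main_conn hq hk hg))

lemma four_le {k q : ℕ} (hq : 0 < q) {f : Fin 7 → ℕ} (hf : IsCirc G7 k q f) : 4 * q ≤ k := by
  by_contra hcon
  push Not at hcon
  obtain ⟨y, hy⟩ := exists_cut hq hf
  have hg := circ_rot_iter y hf
  refine not_three (c := fun v => (rot k)^[y] f v / q) (fun v => ?_)
    (fun u v huv => proper_div hq hg u v huv)
  rw [rot_iter_apply hf.1]
  have := hy v
  rw [Nat.div_lt_iff_lt_mul hq]
  omega

lemma ok_four {a b : ℕ} (ha : a < 4) (hb : b < 4) : Ok 4 1 a b ↔ a ≠ b := by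
  rcases le_total a b with h | h
  · constructor
    · intro h1
      have := ok_symm h1
      rw [ok_iff h] at this
      omega
    · intro h1
      refine ok_symm ?_
      rw [ok_iff h]
      omega
  · rw [ok_iff h]
    omega

lemma inv_step {a b : Fin 7 → ℕ} (hab : Rec G7 4 1 a b) (h : (T.take 96).contains (code a) = true) :
    (T.take 96).contains (code b) = true := by
  obtain ⟨ha, hb, v, hv⟩ := hab
  have hcl := T0_closed
  rw [List.all_eq_true] at hcl
  have h1 := hcl (code a) (by simpa using h)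
  rw [List.all_eq_true] at h1
  have h2 := h1 v.val (List.mem_range.2 v.2)
  rw [List.all_eq_true] at h2
  have h3 := h2 (b v) (List.mem_range.2 (hb.1 v))
  rw [dig_code ha.1] at h3
  have hcode : code a + b v * 4 ^ v.val - a v * 4 ^ v.val = code b := by
    unfold code
    have e0 : v ≠ 0 → a 0 = b 0 := fun h => hv 0 (Ne.symm h)
    have e1 : v ≠ 1 → a 1 = b 1 := fun h => hv 1 (Ne.symm h)
    have e2 : v ≠ 2 → a 2 = b 2 := fun h => hv 2 (Ne.symm h)
    have e3 : v ≠ 3 → a 3 = b 3 := fun h => hv 3 (Ne.symm h)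
    have e4 : v ≠ 4 → a 4 = b 4 := fun h => hv 4 (Ne.symm h)
    have e5 : v ≠ 5 → a 5 = b 5 := fun h => hv 5 (Ne.symm h)
    have e6 : v ≠ 6 → a 6 = b 6 := fun h => hv 6 (Ne.symm h)
    clear h1 h2 h3 hcl h ha hb hv
    fin_cases v
    · rw [e1 (by decide), e2 (by decide), e3 (by decide), e4 (by decide), e5 (by decide),
        e6 (by decide)]
      show _ + b 0 * 4 ^ 0 - a 0 * 4 ^ 0 = _
      norm_num; omega
    · rw [e0 (by decide), e2 (by decide), e3 (by decide), e4 (by decide), e5 (by decide),
        e6 (by decide)]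
      show _ + b 1 * 4 ^ 1 - a 1 * 4 ^ 1 = _
      norm_num; omega
    · rw [e0 (by decide), e1 (by decide), e3 (by decide), e4 (by decide), e5 (by decide),
        e6 (by decide)]
      show _ + b 2 * 4 ^ 2 - a 2 * 4 ^ 2 = _
      norm_num; omega
    · rw [e0 (by decide), e1 (by decide), e2 (by decide), e4 (by decide), e5 (by decide),
        e6 (by decide)]
      show _ + b 3 * 4 ^ 3 - a 3 * 4 ^ 3 = _
      norm_num; omega
    · rw [e0 (by decide), e1 (by decide), e2 (by decide), e3 (by decide), e5 (by decide),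
        e6 (by decide)]
      show _ + b 4 * 4 ^ 4 - a 4 * 4 ^ 4 = _
      norm_num; omega
    · rw [e0 (by decide), e1 (by decide), e2 (by decide), e3 (by decide), e4 (by decide),
        e6 (by decide)]
      show _ + b 5 * 4 ^ 5 - a 5 * 4 ^ 5 = _
      norm_num; omega
    · rw [e0 (by decide), e1 (by decide), e2 (by decide), e3 (by decide), e4 (by decide),
        e5 (by decide)]
      show _ + b 6 * 4 ^ 6 - a 6 * 4 ^ 6 = _
      norm_num; omega
  rw [hcode] at h3
  have hval : valid (code b) = true := by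
    refine valid_code hb.1 (fun u w huw => ?_)
    exact (ok_four (hb.1 u) (hb.1 w)).1 (hb.2 u w huw)
  rw [hval] at h3
  simpa using h3

lemma circ41 {n : ℕ} (hn : valid n = true) : IsCirc G7 4 1 (colOf n) := by
  have h := Pp_colOf hn
  exact ⟨h.1, fun u v huv => (ok_four (h.1 u) (h.1 v)).2 (h.2 u v u.2 v.2 huv)⟩

lemma not_mix : ¬ Mix G7 4 1 := by
  intro h
  have h1 := h c0 c1 (circ41 (by decide +kernel)) (circ41 (by decide +kernel))
  have key : ∀ g, ReflTransGen (Rec G7 4 1) c0 g → (T.take 96).contains (code g) = true := by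
    intro g hg
    induction hg with
    | refl => decide +kernel
    | tail _ h2 ih => exact inv_step h2 ih
  have h2 := key _ h1
  have h3 : (T.take 96).contains (code c1) = false := by decide +kernel
  rw [h3] at h2
  exact Bool.noConfusion h2

lemma circChi_eq : circChi G7 = 4 := by
  unfold circChi
  refine IsLeast.csInf_eq ⟨⟨4, 1, by norm_num, by norm_num, ⟨c0, circ41 (by decide +kernel)⟩,
    by norm_num⟩, ?_⟩
  rintro x ⟨k, q, _, hq, ⟨f, hf⟩, rfl⟩
  have h := four_le hq hf
  have hq' : (0 : ℝ) < q := by exact_mod_cast hq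
  rw [le_div_iff₀ hq']
  exact_mod_cast h

lemma circMix_eq : circMix G7 = 4 := by
  unfold circMix
  set S := {x : ℝ | ∃ l : ℚ, x = (l : ℝ) ∧
    ∀ k q : ℕ, 0 < k → 0 < q → l ≤ (k : ℚ) / (q : ℚ) → Mix G7 k q} with hS
  have hin : ∀ l : ℚ, 4 < l → (l : ℝ) ∈ S := by
    intro l hl
    refine ⟨l, rfl, fun k q _ hq hkq => mix_of_lt hq ?_⟩
    have hq' : (0 : ℚ) < q := by exact_mod_cast hq
    have h1 : (4 : ℚ) < (k : ℚ) / q := lt_of_lt_of_le hl hkq
    rw [lt_div_iff₀ hq'] at h1
    exact_mod_cast h1
  have hlow : ∀ x ∈ S, (4 : ℝ) ≤ x := by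
    rintro x ⟨l, rfl, hl⟩
    by_contra hcon
    push Not at hcon
    have h1 : l < 4 := by exact_mod_cast hcon
    exact not_mix (hl 4 1 (by norm_num) (by norm_num) (by push_cast; linarith))
  refine le_antisymm ?_ ?_
  · refine le_of_forall_gt_imp_ge_of_dense ?_
    intro y hy
    obtain ⟨l, h1, h2⟩ := exists_rat_btwn hy
    have h3 := csInf_le ⟨4, hlow⟩ (hin l (by exact_mod_cast h1))
    linarith
  · exact le_csInf ⟨_, hin 5 (by norm_num)⟩ hlow

/-- **Theorem.** There is a non-bipartite graph (on 7 vertices) whose circular mixing threshold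
and circular chromatic number are equal (both are 4). -/
theorem result : ∃ G : SimpleGraph (Fin 7), ¬ G.Colorable 2 ∧ circMix G = circChi G ∧
    circChi G = 4 := by
  refine ⟨G7, ?_, by rw [circMix_eq, circChi_eq], circChi_eq⟩
  rintro ⟨C⟩
  refine not_three (c := fun v => (C v).val) (fun v => by have := (C v).2; omega) ?_
  intro u v huv h
  exact C.valid (show G7.Adj u v from huv) (Fin.ext h)

end Pool.Agent.Results.MP_3baeb2_co.MixingEqualsCircular
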